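import Pool.Agent.Lib_Forcing.ZFC
import Mathlib.Tactic.Push

/-!
# Numerals and sets of natural numbers in the generic model
-/

namespace Pool.Agent.Forcing

universe u v
open Name

section names
variable {P : Type u} [Preorder P] [OrderTop P]

lemma fmem_num_succ {z : Name P} {n : ℕ} {p : P} :
    fmem z (num (n+1)) p ↔ ∀ q ≤ p, ∃ r ≤ q, fmem z (num n) r ∨ feq z (num n) r :=
  fmem_succName

/-- smaller numerals are members -/
lemma fmem_num_of_lt {m n : ℕ} (h : m < n) (p : P) : fmem (num m : Name P) (num n) p := by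
  induction n with
  | zero => exact absurd h (Nat.not_lt_zero m)
  | succ n ih =>
    rw [fmem_num_succ]
    intro q _
    rcases Nat.lt_succ_iff_lt_or_eq.1 h with h1 | h1
    · exact ⟨q, le_rfl, Or.inl (fmem_mono (ih h1) (by assumption))⟩
    · subst h1; exact ⟨q, le_rfl, Or.inr (feq_refl _ _)⟩

/-- members of numerals are smaller numerals -/
lemma exists_of_fmem_num {z : Name P} {n : ℕ} {p : P} (h : fmem z (num n) p) :
    ∀ q ≤ p, ∃ r ≤ q, ∃ m < n, feq z (num m) r := by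
  induction n generalizing p with
  | zero => exact absurd h not_fmem_emptyName
  | succ n ih =>
    intro q hq
    rw [fmem_num_succ] at h
    obtain ⟨r, hr, h1 | h1⟩ := h q hq
    · obtain ⟨s, hs, m, hm, h2⟩ := ih h1 r le_rfl
      exact ⟨s, hs.trans hr, m, Nat.lt_succ_of_lt hm, h2⟩
    · exact ⟨r, hr, n, Nat.lt_succ_self n, h1⟩

/-- no numeral is forced to be a member of a smaller or equal numeral -/
lemma not_fmem_num {m n : ℕ} (h : n ≤ m) (p : P) : ¬ fmem (num m : Name P) (num n) p := by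
  induction n generalizing m p with
  | zero => exact not_fmem_emptyName
  | succ n ih =>
    intro hm
    rw [fmem_num_succ] at hm
    obtain ⟨r, _, h1 | h1⟩ := hm p le_rfl
    · exact ih (by omega) r h1
    · -- num m = num n with n < m : then num n ∈ num m = num n
      have h2 : fmem (num n : Name P) (num m) r := fmem_num_of_lt (by omega) r
      exact ih le_rfl r (fmem_congr_right h1 h2)

lemma feq_num_iff {m n : ℕ} {p : P} : feq (num m : Name P) (num n) p ↔ m = n := by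
  constructor
  · intro h
    rcases lt_trichotomy m n with h1 | h1 | h1
    · exact absurd (fmem_congr_right (feq_symm h) (fmem_num_of_lt h1 p)) (not_fmem_num le_rfl p)
    · exact h1
    · exact absurd (fmem_congr_right h (fmem_num_of_lt h1 p)) (not_fmem_num le_rfl p)
  · rintro rfl; exact feq_refl _ _

/-- the canonical name of a set of natural numbers -/
def subName (S : Set ℕ) : Name P :=
  Name.mk (ULift.{u} {n : ℕ // n ∈ S}) (fun n => num n.down.1) (fun _ => ⊤)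

lemma fmem_subName {S : Set ℕ} {z : Name P} {p : P} :
    fmem z (subName S) p ↔ ∀ q ≤ p, ∃ r ≤ q, ∃ n ∈ S, feq z (num n) r := by
  constructor
  · intro h q hq
    obtain ⟨r, hr, ⟨n, hn⟩, _, h2⟩ := h q hq
    exact ⟨r, hr, n, hn, h2⟩
  · intro h q hq
    obtain ⟨r, hr, n, hn, h2⟩ := h q hq
    exact ⟨r, hr, ⟨n, hn⟩, le_top, h2⟩

lemma fmem_num_subName {S : Set ℕ} {n : ℕ} {p : P} :
    fmem (num n) (subName S : Name P) p ↔ n ∈ S := by
  rw [fmem_subName]
  constructor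
  · intro h
    obtain ⟨r, _, m, hm, h2⟩ := h p le_rfl
    rw [feq_num_iff] at h2
    rw [h2]; exact hm
  · intro h q _
    exact ⟨q, le_rfl, n, h, feq_refl _ _⟩

/-- `q` decides the name `x` to be the set `S` of natural numbers (as far as natural numbers are
concerned) -/
def DecAs (x : Name P) (S : Set ℕ) (q : P) : Prop :=
  ∀ n, (n ∈ S → fmem (num n) x q) ∧ (n ∉ S → ∀ r ≤ q, ¬ fmem (num n) x r)

lemma DecAs.mono {x : Name P} {S : Set ℕ} {p q : P} (h : DecAs x S p) (hq : q ≤ p) :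
    DecAs x S q :=
  fun n => ⟨fun hn => fmem_mono ((h n).1 hn) hq, fun hn r hr => (h n).2 hn r (hr.trans hq)⟩

lemma DecAs.unique {x : Name P} {S T : Set ℕ} {p : P} (h1 : DecAs x S p) (h2 : DecAs x T p) :
    S = T := by
  ext n
  constructor
  · intro hn
    by_contra hT
    exact (h2 n).2 hT p le_rfl ((h1 n).1 hn)
  · intro hn
    by_contra hS
    exact (h1 n).2 hS p le_rfl ((h2 n).1 hn)

/-- σ-closed posets -/
def SigmaClosed (P : Type u) [Preorder P] : Prop :=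
  ∀ G : ℕ → P, Antitone G → ∃ p, ∀ n, p ≤ G n

omit [OrderTop P] in
lemma SigmaClosed.exists_le (hP : SigmaClosed P) (D : ℕ → Set P)
    (hD : ∀ k p, ∃ q ≤ p, q ∈ D k) (hopen : ∀ k p q, q ≤ p → p ∈ D k → q ∈ D k) (p : P) :
    ∃ q ≤ p, ∀ k, q ∈ D k := by
  obtain ⟨G, hG0, hGa, hG⟩ := exists_generic_seq D hD p
  obtain ⟨q, hq⟩ := hP G hGa
  refine ⟨q, by rw [← hG0]; exact hq 0, fun k => ?_⟩
  obtain ⟨n, hn⟩ := hG k
  exact hopen k _ _ (hq n) hn

/-- in a σ-closed poset every name can be decided on the natural numbers -/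
lemma SigmaClosed.exists_decAs (hP : SigmaClosed P) (x : Name P) (p : P) :
    ∃ q ≤ p, ∃ S, DecAs x S q := by
  obtain ⟨q, hq, h⟩ := hP.exists_le
    (fun n => {q | fmem (num n) x q ∨ ∀ r ≤ q, ¬ fmem (num n) x r})
    (by
      intro n p
      by_cases h : ∃ q ≤ p, fmem (num n) x q
      · obtain ⟨q, hq, h⟩ := h; exact ⟨q, hq, Or.inl h⟩
      · push Not at h; exact ⟨p, le_rfl, Or.inr h⟩)
    (by
      rintro n p q hq (h | h)
      · exact Or.inl (fmem_mono h hq)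
      · exact Or.inr fun r hr => h r (hr.trans hq)) p
  refine ⟨q, hq, {n | fmem (num n) x q}, fun n => ⟨fun hn => hn, fun hn => ?_⟩⟩
  exact (h n).resolve_left hn

end names

section model
variable {P : Type u} [Preorder P] [OrderTop P] (𝔊 : Gen P)

namespace Gen

/-- assignment with two prescribed values -/
def v2 (x y : 𝔊.N) : ℕ → 𝔊.N := fun k => if k = 0 then x else y

lemma E_succName {z x : 𝔊.N} (h : succName x.1 ∈ 𝔊.N) :
    𝔊.E (𝔊.cls z) (𝔊.cls ⟨succName x.1, h⟩) ↔ 𝔊.E (𝔊.cls z) (𝔊.cls x) ∨ 𝔊.cls z = 𝔊.cls x := by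
  have h1 := 𝔊.los (.or (.mem 0 1) (.eq 0 1)) (𝔊.v2 z x)
  simp only [sat_or, sat_mem, sat_eq] at h1
  have e0 : 𝔊.v2 z x 0 = z := rfl
  have e1 : 𝔊.v2 z x 1 = x := rfl
  rw [e0, e1] at h1
  rw [h1, E_cls]
  simp only [force_or, force_mem, force_eq, e0, e1, fmem_succName]

variable {𝔊}

lemma isNum_num (hN : ∀ n, num n ∈ 𝔊.N) (n : ℕ) (x : 𝔊.M) :
    IsNum 𝔊.E n x ↔ x = 𝔊.cls ⟨num n, hN n⟩ := by
  have hzfc := 𝔊.modelsZFC
  induction n generalizing x with
  | zero =>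
    have h0 : ∀ z, ¬ 𝔊.E z (𝔊.cls ⟨num 0, hN 0⟩) := by
      intro z hz
      obtain ⟨z', rfl⟩ := 𝔊.exists_rep z
      obtain ⟨n, hn⟩ := hz
      exact not_fmem_emptyName hn
    constructor
    · intro h
      exact hzfc.extensionality _ _ fun z => ⟨fun hz => absurd hz (h z), fun hz => absurd hz (h0 z)⟩
    · rintro rfl; exact h0
  | succ n ih =>
    have hs : ∀ z, 𝔊.E z (𝔊.cls ⟨num (n+1), hN (n+1)⟩) ↔
        𝔊.E z (𝔊.cls ⟨num n, hN n⟩) ∨ z = 𝔊.cls ⟨num n, hN n⟩ := by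
      intro z
      obtain ⟨z', rfl⟩ := 𝔊.exists_rep z
      exact 𝔊.E_succName (x := ⟨num n, hN n⟩) (hN (n+1))
    constructor
    · rintro ⟨y, hy, h⟩
      have hy' := (ih y).1 hy
      subst hy'
      exact hzfc.extensionality _ _ fun z => by rw [h, hs]
    · rintro rfl
      exact ⟨_, (ih _).2 rfl, hs⟩

/-- the trace of the class of a name -/
lemma natTrace_cls (hN : ∀ n, num n ∈ 𝔊.N) (x : 𝔊.N) :
    natTrace 𝔊.E (𝔊.cls x) = {n | ∃ k, fmem (num n) x.1 (𝔊.G k)} := by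
  ext n
  constructor
  · rintro ⟨z, hz, hzx⟩
    rw [isNum_num hN] at hz
    subst hz
    exact hzx
  · intro h
    exact ⟨_, (isNum_num hN n _).2 rfl, h⟩

lemma natTrace_of_decAs (hN : ∀ n, num n ∈ 𝔊.N) {x : 𝔊.N} {S : Set ℕ} {k : ℕ}
    (h : DecAs x.1 S (𝔊.G k)) : natTrace 𝔊.E (𝔊.cls x) = S := by
  rw [natTrace_cls hN]
  ext n
  constructor
  · rintro ⟨m, hm⟩
    by_contra hn
    exact (h n).2 hn _ (𝔊.anti (le_max_left k m)) (fmem_mono hm (𝔊.anti (le_max_right k m)))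
  · intro hn
    exact ⟨k, (h n).1 hn⟩

lemma omegaModel (hN : ∀ n, num n ∈ 𝔊.N) (hω : omegaName ∈ 𝔊.N)
    (hD : ∀ z ∈ 𝔊.N, ∃ k, (∀ r ≤ 𝔊.G k, ¬ fmem z omegaName r) ∨ ∃ n, feq z (num n) (𝔊.G k)) :
    OmegaModel 𝔊.E := by
  refine ⟨𝔊.cls ⟨omegaName, hω⟩, fun x => ?_⟩
  obtain ⟨z, rfl⟩ := 𝔊.exists_rep x
  constructor
  · rintro ⟨m, hm⟩
    obtain ⟨k, h | ⟨n, hn⟩⟩ := hD z.1 z.2
    · exact absurd (fmem_mono hm (𝔊.anti (le_max_right k m))) (h _ (𝔊.anti (le_max_left k m)))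
    · exact ⟨n, (isNum_num hN n _).2 ((𝔊.cls_eq).2 ⟨k, hn⟩)⟩
  · rintro ⟨n, hn⟩
    rw [isNum_num hN] at hn
    rw [hn]
    refine ⟨0, ?_⟩
    rw [fmem_omegaName]
    exact fun q _ => ⟨q, le_rfl, n, feq_refl _ _⟩

end Gen

end model

end Pool.Agent.Forcing
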