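import Pool.Agent.Lib_Forcing.Mixing
import Mathlib.Order.BoundedOrder.Basic
import Mathlib.Order.WellFounded
import Mathlib.SetTheory.Cardinal.Order

/-!
# The axioms of ZFC are forced
-/

namespace Pool.Agent.Forcing

universe u
open Name

variable {P : Type u} [Preorder P]

/-! ### Foundation -/

lemma foundation_names (x : Name P) (p : P) (h : ∀ q ≤ p, ∃ r ≤ q, ∃ y, fmem y x r) :
    ∀ q ≤ p, ∃ r ≤ q, ∃ y, fmem y x r ∧ ∀ z, ∀ s ≤ r, fmem z x s → ∀ t ≤ s, ¬ fmem z y t := by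
  intro q hq
  by_contra hcon
  push Not at hcon
  have key : ∀ y : Name P, ∀ r ≤ q, ¬ fmem y x r := by
    intro y
    induction y with
    | mk ι A c ih =>
      intro r hr hm
      obtain ⟨z, s, hs, hzx, t, ht, hzy⟩ := hcon r hr (Name.mk ι A c) hm
      obtain ⟨t', ht', i, _, h2⟩ := hzy t le_rfl
      refine ih i t' (ht'.trans (ht.trans (hs.trans hr))) ?_
      exact fmem_congr_left h2 (fmem_mono hzx (ht'.trans ht))
  obtain ⟨r, hr, y, hy⟩ := h q hq
  exact key y r hr hy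

/-! ### Union -/

/-- the union name -/
def unionName (x : Name P) : Name P :=
  Name.mk (Σ i : x.idx, Σ j : (x.nm i).idx, {r : P // r ≤ x.cd i ∧ r ≤ (x.nm i).cd j})
    (fun t => (x.nm t.1).nm t.2.1) (fun t => t.2.2.1)

lemma fmem_unionName {x z : Name P} {p : P} :
    fmem z (unionName x) p ↔ ∀ q ≤ p, ∃ r ≤ q, ∃ y, fmem y x r ∧ fmem z y r := by
  constructor
  · intro h q hq
    obtain ⟨r, hr, ⟨i, j, s, hs1, hs2⟩, h1, h2⟩ := h q hq
    refine ⟨r, hr, x.nm i, fmem_nm x i (le_trans h1 hs1), ?_⟩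
    exact fmem_congr_left (feq_symm h2) (fmem_nm (x.nm i) j (le_trans h1 hs2))
  · intro h
    apply fmem_dense
    intro q hq
    obtain ⟨r, hr, y, hy, hz⟩ := h q hq
    obtain ⟨s, hs, i, h1, h2⟩ := hy r le_rfl
    obtain ⟨t, ht, j, h3, h4⟩ := fmem_congr_right h2 (fmem_mono hz hs) s le_rfl
    refine ⟨t, (ht.trans hs).trans hr, ?_⟩
    refine fmem_congr_left (feq_symm h4) ?_
    exact fmem_nm (unionName x) ⟨i, j, t, ht.trans h1, h3⟩ le_rfl

/-! ### Power set -/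

section top
variable [OrderTop P]

/-- the power set name -/
def powName (x : Name P) : Name P :=
  Name.mk (x.idx → Set P)
    (fun S => Name.mk (Σ i : x.idx, {r : P // r ∈ S i ∧ r ≤ x.cd i}) (fun t => x.nm t.1)
      (fun t => t.2.1))
    (fun _ => ⊤)

lemma fmem_powName {x z : Name P} {p : P} :
    fmem z (powName x) p ↔ ∀ w, ∀ q ≤ p, fmem w z q → fmem w x q := by
  constructor
  · intro h w q hq hw
    apply fmem_dense
    intro r hr
    obtain ⟨s, hs, S, _, h2⟩ := h r (hr.trans hq)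
    obtain ⟨t, ht, ⟨i, t', ht'1, ht'2⟩, h3, h4⟩ :=
      fmem_congr_right h2 (fmem_mono hw (hs.trans hr)) s le_rfl
    exact ⟨t, ht.trans hs, fmem_congr_left (feq_symm h4) (fmem_nm x i (le_trans h3 ht'2))⟩
  · intro h q hq
    refine ⟨q, le_rfl, fun i => {r | fmem (x.nm i) z r}, le_top, ?_⟩
    apply feq_of_forall
    · intro w r hr hw s hs
      obtain ⟨t, ht, i, h1, h2⟩ := h w s (hs.trans (hr.trans hq)) (fmem_mono hw hs) s le_rfl
      have h3 : fmem (x.nm i) z t := fmem_congr_left h2 (fmem_mono hw (ht.trans hs))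
      exact ⟨t, ht, ⟨i, t, h3, h1⟩, le_rfl, h2⟩
    · intro w r hr hw
      apply fmem_dense
      intro s hs
      obtain ⟨t, ht, ⟨i, t', ht'1, ht'2⟩, h3, h4⟩ := hw s hs
      exact ⟨t, ht, fmem_congr_left (feq_symm h4) (fmem_mono ht'1 h3)⟩

/-! ### Pairing and successor -/

/-- the unordered pair name -/
def pairName (x y : Name P) : Name P :=
  Name.mk (ULift.{u} Bool) (fun b => if b.down then x else y) (fun _ => ⊤)

lemma fmem_pairName {x y z : Name P} {p : P} :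
    fmem z (pairName x y) p ↔ ∀ q ≤ p, ∃ r ≤ q, feq z x r ∨ feq z y r := by
  constructor
  · intro h q hq
    obtain ⟨r, hr, ⟨b⟩, _, h2⟩ := h q hq
    refine ⟨r, hr, ?_⟩
    cases b
    · right; simpa [pairName] using h2
    · left; simpa [pairName] using h2
  · intro h q hq
    obtain ⟨r, hr, h1 | h1⟩ := h q hq
    · exact ⟨r, hr, ⟨true⟩, le_top, by simpa [pairName] using h1⟩
    · exact ⟨r, hr, ⟨false⟩, le_top, by simpa [pairName] using h1⟩

/-- the name for `x ∪ {x}` -/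
def succName (x : Name P) : Name P :=
  Name.mk (Option x.idx) (fun o => o.elim x x.nm) (fun o => o.elim ⊤ x.cd)

lemma fmem_succName {x z : Name P} {p : P} :
    fmem z (succName x) p ↔ ∀ q ≤ p, ∃ r ≤ q, fmem z x r ∨ feq z x r := by
  constructor
  · intro h q hq
    obtain ⟨r, hr, o, h1, h2⟩ := h q hq
    refine ⟨r, hr, ?_⟩
    cases o with
    | none => right; exact h2
    | some i => left; exact fmem_congr_left (feq_symm h2) (fmem_nm x i h1)
  · intro h
    apply fmem_dense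
    intro q hq
    obtain ⟨r, hr, h1 | h1⟩ := h q hq
    · refine ⟨r, hr, fun s hs => ?_⟩
      obtain ⟨t, ht, i, h2, h3⟩ := h1 s hs
      exact ⟨t, ht, some i, h2, h3⟩
    · exact ⟨r, hr, fun s hs => ⟨s, le_rfl, none, le_top, feq_mono h1 hs⟩⟩

/-- the empty name -/
def emptyName : Name P := Name.mk PEmpty (fun e => e.elim) (fun e => e.elim)

omit [OrderTop P] in
lemma not_fmem_emptyName {z : Name P} {p : P} : ¬ fmem z (emptyName : Name P) p := by
  intro h
  obtain ⟨_, _, e, _⟩ := h p le_rfl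
  exact PEmpty.elim e

/-- numerals -/
def num : ℕ → Name P
  | 0 => emptyName
  | n+1 => succName (num n)

/-- the set of natural numbers -/
def omegaName : Name P := Name.mk (ULift.{u} ℕ) (fun n => num n.down) (fun _ => ⊤)

lemma fmem_omegaName {z : Name P} {p : P} :
    fmem z (omegaName : Name P) p ↔ ∀ q ≤ p, ∃ r ≤ q, ∃ n, feq z (num n) r := by
  constructor
  · intro h q hq
    obtain ⟨r, hr, ⟨n⟩, _, h2⟩ := h q hq
    exact ⟨r, hr, n, h2⟩
  · intro h q hq
    obtain ⟨r, hr, n, h1⟩ := h q hq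
    exact ⟨r, hr, ⟨n⟩, le_top, h1⟩

end top

/-! ### Separation and collection, for arbitrary forcing predicates -/

/-- separation name -/
def sepName (x : Name P) (Φ : Name P → P → Prop) : Name P :=
  Name.mk (Σ i : x.idx, {r : P // r ≤ x.cd i ∧ Φ (x.nm i) r}) (fun t => x.nm t.1) (fun t => t.2.1)

lemma fmem_sepName {x z : Name P} {Φ : Name P → P → Prop}
    (mono : ∀ x p q, q ≤ p → Φ x p → Φ x q)
    (dense : ∀ x p, (∀ q ≤ p, ∃ r ≤ q, Φ x r) → Φ x p)
    (congr : ∀ x y p, feq x y p → Φ x p → Φ y p) {p : P} :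
    fmem z (sepName x Φ) p ↔ fmem z x p ∧ Φ z p := by
  constructor
  · intro h
    constructor
    · apply fmem_dense
      intro q hq
      obtain ⟨r, hr, ⟨i, s, hs1, hs2⟩, h1, h2⟩ := h q hq
      exact ⟨r, hr, fmem_congr_left (feq_symm h2) (fmem_nm x i (le_trans h1 hs1))⟩
    · apply dense
      intro q hq
      obtain ⟨r, hr, ⟨i, s, hs1, hs2⟩, h1, h2⟩ := h q hq
      exact ⟨r, hr, congr _ _ _ (feq_symm h2) (mono _ _ _ h1 hs2)⟩
  · rintro ⟨h1, h2⟩ q hq
    obtain ⟨r, hr, i, h3, h4⟩ := h1 q hq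
    exact ⟨r, hr, ⟨i, r, h3, congr _ _ _ h4 (mono _ _ _ (hr.trans hq) h2)⟩, le_rfl, h4⟩

section top
variable [OrderTop P]

open Classical in
/-- collection name -/
noncomputable def collName (x : Name P) (Φ : Name P → Name P → P → Prop) : Name P :=
  Name.mk {t : x.idx × P // ∃ y, Φ (x.nm t.1) y t.2} (fun t => t.2.choose) (fun _ => ⊤)

lemma exists_mem_collName {x z : Name P} {Φ : Name P → Name P → P → Prop}
    (congr : ∀ x x' y p, feq x x' p → Φ x y p → Φ x' y p)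
    {p : P} (hz : fmem z x p) (h : ∀ q ≤ p, ∃ r ≤ q, ∃ y, Φ z y r) :
    ∀ q ≤ p, ∃ r ≤ q, ∃ y, fmem y (collName x Φ) r ∧ Φ z y r := by
  intro q hq
  obtain ⟨r, hr, i, _, h2⟩ := hz q hq
  obtain ⟨s, hs, y, hy⟩ := h r (hr.trans hq)
  have hex : ∃ y, Φ (x.nm i) y s := ⟨y, congr _ _ _ _ (feq_mono h2 hs) hy⟩
  refine ⟨s, hs.trans hr, hex.choose, ?_, ?_⟩
  · exact fmem_nm (collName x Φ) ⟨(i, s), hex⟩ le_top
  · exact congr _ _ _ _ (feq_symm (feq_mono h2 hs)) hex.choose_spec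

end top

/-! ### Choice -/

lemma choice_names (x : Name P) :
    ∃ c : Name P, ∀ p : P,
      (∀ q ≤ p, ∀ y y', fmem y x q → fmem y' x q → ∀ z, fmem z y q → fmem z y' q → feq y y' q) →
      (∀ q ≤ p, ∀ y, fmem y x q → ∀ r ≤ q, ∃ s ≤ r, ∃ z, fmem z y s) →
      ∀ y, ∀ q ≤ p, fmem y x q → ∀ r ≤ q, ∃ s ≤ r, ∃ z, fmem z y s ∧ fmem z c s ∧
        ∀ w, ∀ t ≤ s, fmem w y t → fmem w c t → feq w z t := by
  classical
  -- the names of potential elements of elements
  let J := Σ i : x.idx, (x.nm i).idx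
  let u : J → Name P := fun j => (x.nm j.1).nm j.2
  -- a well order of J
  let R : J → J → Prop := WellOrderingRel
  have hwo : IsWellOrder J R := WellOrderingRel.isWellOrder
  -- `Ψ j y r`: r forces y ∈ x, u j ∈ y and u k ∉ y for all k < j
  let Ψ : J → Name P → P → Prop := fun j y r =>
    fmem y x r ∧ fmem (u j) y r ∧ ∀ k, R k j → ∀ s ≤ r, ¬ fmem (u k) y s
  have hΨmono : ∀ j y p q, q ≤ p → Ψ j y p → Ψ j y q := by
    rintro j y p q hq ⟨h1, h2, h3⟩
    exact ⟨fmem_mono h1 hq, fmem_mono h2 hq, fun k hk s hs => h3 k hk s (hs.trans hq)⟩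
  let c : Name P := Name.mk (Σ j : J, {r : P // ∃ y, Ψ j y r}) (fun t => u t.1) (fun t => t.2.1)
  refine ⟨c, ?_⟩
  intro p hdisj hne y q hq hyx r hr
  -- some u j is in y
  have hex : ∃ j, ∃ s ≤ r, fmem (u j) y s := by
    obtain ⟨s, hs, z, hz⟩ := hne q hq y hyx r hr
    obtain ⟨s', hs', i, h1, h2⟩ := hyx s (hs.trans hr)
    have h3 : fmem z (x.nm i) s' := fmem_congr_right h2 (fmem_mono hz hs')
    obtain ⟨t, ht, k, _, h5⟩ := h3 s' le_rfl
    refine ⟨⟨i, k⟩, t, ht.trans (hs'.trans hs), ?_⟩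
    exact fmem_congr_left h5 (fmem_mono hz (ht.trans hs'))
  obtain ⟨j, hj, hmin⟩ := WellFounded.has_min (hwo.wf) {j | ∃ s ≤ r, fmem (u j) y s} hex
  obtain ⟨s, hs, hjs⟩ := hj
  have hmin' : ∀ k, R k j → ∀ t ≤ s, ¬ fmem (u k) y t := by
    intro k hk t ht hkt
    exact hmin k ⟨t, ht.trans hs, hkt⟩ hk
  have hΨ : Ψ j y s := ⟨fmem_mono hyx (hs.trans hr), hjs, hmin'⟩
  refine ⟨s, hs, u j, hjs, fmem_nm c ⟨j, s, y, hΨ⟩ le_rfl, ?_⟩
  intro w t ht hwy hwc
  apply feq_dense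
  intro t1 ht1
  obtain ⟨t2, ht2, ⟨k, r', y', hy'⟩, h1, h2⟩ := hwc t1 ht1
  have hle : t2 ≤ t := ht2.trans ht1
  have hΨ2 : Ψ k y' t2 := hΨmono _ _ _ _ h1 hy'
  -- y = y' since they share w = u k
  have hwk : feq w (u k) t2 := h2
  have huk : fmem (u k) y t2 := fmem_congr_left hwk (fmem_mono hwy hle)
  have hle2 : t2 ≤ s := hle.trans ht
  have hyy' : feq y y' t2 := hdisj t2 ((hle2.trans hs).trans (hr.trans hq)) y y'
    (fmem_mono hyx ((hle2.trans hs).trans hr)) hΨ2.1 (u k) huk hΨ2.2.1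
  refine ⟨t2, ht2, ?_⟩
  rcases trichotomous_of R k j with h | h | h
  · exact absurd huk (hmin' k h t2 hle2)
  · rw [← h]; exact hwk
  · exfalso
    exact hΨ2.2.2 j h t2 le_rfl (fmem_congr_right hyy' (fmem_mono hjs hle2))

end Pool.Agent.Forcing
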