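import Mathlib.Logic.Function.Basic
import Mathlib.Data.Set.Basic
import Mathlib.Tactic.DeriveCountable

/-!
# The language of set theory, models of ZFC, ω-models, coded sets of natural numbers

`(M, E)` is always a structure for the language of set theory: a type `M` with a binary
relation `E x y`, read: `x` is an element of `y`.
-/

namespace Pool.Agent.Forcing

universe v

/-- Formulas of the first-order language of set theory (`∈` and `=`), with variables indexed by
natural numbers. -/
inductive Fml : Type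
  | mem (i j : ℕ) : Fml
  | eq (i j : ℕ) : Fml
  | neg (φ : Fml) : Fml
  | and (φ ψ : Fml) : Fml
  | all (i : ℕ) (φ : Fml) : Fml
  deriving Countable

/-- Tarski satisfaction in the structure `(M, E)` under the assignment `v`. -/
def Sat {M : Type v} (E : M → M → Prop) : Fml → (ℕ → M) → Prop
  | .mem i j, v => E (v i) (v j)
  | .eq i j, v => v i = v j
  | .neg φ, v => ¬ Sat E φ v
  | .and φ ψ, v => Sat E φ v ∧ Sat E ψ v
  | .all i φ, v => ∀ x, Sat E φ (Function.update v i x)

/-- `(M, E)` is a model of ZFC (Zermelo–Fraenkel set theory with choice). The separation and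
replacement schemes are stated for all first-order formulas `φ` of set theory, with parameters
given by an assignment `v` of the variables. -/
structure ModelsZFC {M : Type v} (E : M → M → Prop) : Prop where
  extensionality : ∀ x y, (∀ z, E z x ↔ E z y) → x = y
  foundation : ∀ x, (∃ y, E y x) → ∃ y, E y x ∧ ∀ z, E z x → ¬ E z y
  pairing : ∀ x y, ∃ z, ∀ w, E w z ↔ w = x ∨ w = y
  union : ∀ x, ∃ u, ∀ z, E z u ↔ ∃ y, E y x ∧ E z y
  powerset : ∀ x, ∃ p, ∀ z, E z p ↔ ∀ w, E w z → E w x
  infinity : ∃ w, (∃ e, E e w ∧ ∀ z, ¬ E z e) ∧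
    ∀ x, E x w → ∃ y, E y w ∧ ∀ z, E z y ↔ E z x ∨ z = x
  separation : ∀ (φ : Fml) (i : ℕ) (v : ℕ → M) (a : M),
    ∃ b, ∀ x, E x b ↔ E x a ∧ Sat E φ (Function.update v i x)
  replacement : ∀ (φ : Fml) (v : ℕ → M) (a : M),
    (∀ x, E x a → ∃! y, Sat E φ (Function.update (Function.update v 0 x) 1 y)) →
    ∃ b, ∀ y, E y b ↔ ∃ x, E x a ∧ Sat E φ (Function.update (Function.update v 0 x) 1 y)
  choice : ∀ x, (∀ y, E y x → ∃ z, E z y) →
    (∀ y y', E y x → E y' x → (∃ z, E z y ∧ E z y') → y = y') →
    ∃ c, ∀ y, E y x → ∃! z, E z y ∧ E z c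

/-- `IsNum E n x`: in the structure `(M, E)` the element `x` is the (von Neumann) natural number
`n`, for a true natural number `n`. -/
def IsNum {M : Type v} (E : M → M → Prop) : ℕ → M → Prop
  | 0, x => ∀ z, ¬ E z x
  | n+1, x => ∃ y, IsNum E n y ∧ ∀ z, E z x ↔ E z y ∨ z = y

/-- `(M, E)` is an ω-model: some element of `M` has as its elements exactly the true natural
numbers (so the set `ω` of the model is the true one). -/
def OmegaModel {M : Type v} (E : M → M → Prop) : Prop :=
  ∃ w, ∀ x, E x w ↔ ∃ n, IsNum E n x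

/-- the set of natural numbers that are elements of `a` in `(M, E)` -/
def natTrace {M : Type v} (E : M → M → Prop) (a : M) : Set ℕ :=
  {n | ∃ z, IsNum E n z ∧ E z a}

/-- `S ⊆ ℕ` is coded in (belongs to) the ω-model `(M, E)`. -/
def Coded {M : Type v} (E : M → M → Prop) (S : Set ℕ) : Prop := ∃ a, natTrace E a = S

end Pool.Agent.Forcing
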