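import Pool.Agent.Lib_Forcing.Names
import Mathlib.Logic.Function.Basic
import Mathlib.Order.Lattice
import Pool.Agent.Lib_Forcing.SetTheory

/-!
# First-order formulas of set theory, satisfaction and forcing
-/

namespace Pool.Agent.Forcing

universe u v

namespace Fml

/-- a bound for the variables occurring in a formula -/
def bd : Fml → ℕ
  | .mem i j => max (i+1) (j+1)
  | .eq i j => max (i+1) (j+1)
  | .neg φ => bd φ
  | .and φ ψ => max (bd φ) (bd ψ)
  | .all i φ => max (i+1) (bd φ)

def imp (φ ψ : Fml) : Fml := neg (and φ (neg ψ))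
def or (φ ψ : Fml) : Fml := neg (and (neg φ) (neg ψ))
def iff (φ ψ : Fml) : Fml := and (imp φ ψ) (imp ψ φ)
def ex (i : ℕ) (φ : Fml) : Fml := neg (all i (neg φ))

end Fml

section Sat
variable {M : Type v} {E : M → M → Prop} {v : ℕ → M} {φ ψ : Fml} {i j : ℕ}

@[simp] lemma sat_mem : Sat E (.mem i j) v ↔ E (v i) (v j) := Iff.rfl
@[simp] lemma sat_eq : Sat E (.eq i j) v ↔ v i = v j := Iff.rfl
@[simp] lemma sat_neg : Sat E (.neg φ) v ↔ ¬ Sat E φ v := Iff.rfl
@[simp] lemma sat_and : Sat E (.and φ ψ) v ↔ Sat E φ v ∧ Sat E ψ v := Iff.rfl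
@[simp] lemma sat_all : Sat E (.all i φ) v ↔ ∀ x, Sat E φ (Function.update v i x) := Iff.rfl
@[simp] lemma sat_imp : Sat E (.imp φ ψ) v ↔ (Sat E φ v → Sat E ψ v) := by
  simp [Fml.imp]
@[simp] lemma sat_or : Sat E (.or φ ψ) v ↔ (Sat E φ v ∨ Sat E ψ v) := by
  simp only [Fml.or, sat_neg, sat_and]; tauto
@[simp] lemma sat_iff : Sat E (.iff φ ψ) v ↔ (Sat E φ v ↔ Sat E ψ v) := by
  simp only [Fml.iff, sat_and, sat_imp]; tauto
@[simp] lemma sat_ex : Sat E (.ex i φ) v ↔ ∃ x, Sat E φ (Function.update v i x) := by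
  simp [Fml.ex]

lemma sat_congr {φ : Fml} {v w : ℕ → M} (h : ∀ i < φ.bd, v i = w i) : Sat E φ v ↔ Sat E φ w := by
  induction φ generalizing v w with
  | mem i j =>
    rw [sat_mem, sat_mem, h i (by simp only [Fml.bd]; omega), h j (by simp only [Fml.bd]; omega)]
  | eq i j =>
    rw [sat_eq, sat_eq, h i (by simp only [Fml.bd]; omega), h j (by simp only [Fml.bd]; omega)]
  | neg φ ih => rw [sat_neg, sat_neg, ih h]
  | and φ ψ ih1 ih2 =>
    rw [sat_and, sat_and, ih1 (fun i hi => h i (lt_of_lt_of_le hi (le_max_left _ _))),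
      ih2 (fun i hi => h i (lt_of_lt_of_le hi (le_max_right _ _)))]
  | all i φ ih =>
    rw [sat_all, sat_all]
    refine forall_congr' fun x => ih fun j hj => ?_
    by_cases hji : j = i
    · subst hji; simp
    · rw [Function.update_of_ne hji, Function.update_of_ne hji]
      exact h j (lt_of_lt_of_le hj (le_max_right _ _))

end Sat

open Name

section Force
variable {P : Type u} [Preorder P]

/-- The forcing relation: `Force φ v p` says that `p` forces `φ` at the names `v`. -/
def Force : Fml → (ℕ → Name P) → P → Prop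
  | .mem i j, v, p => fmem (v i) (v j) p
  | .eq i j, v, p => feq (v i) (v j) p
  | .neg φ, v, p => ∀ q ≤ p, ¬ Force φ v q
  | .and φ ψ, v, p => Force φ v p ∧ Force ψ v p
  | .all i φ, v, p => ∀ x, Force φ (Function.update v i x) p

variable {v w : ℕ → Name P} {φ ψ : Fml} {i j : ℕ} {p q : P}

@[simp] lemma force_mem : Force (.mem i j) v p ↔ fmem (v i) (v j) p := Iff.rfl
@[simp] lemma force_eq : Force (.eq i j) v p ↔ feq (v i) (v j) p := Iff.rfl
@[simp] lemma force_neg : Force (.neg φ) v p ↔ ∀ q ≤ p, ¬ Force φ v q := Iff.rfl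
@[simp] lemma force_and : Force (.and φ ψ) v p ↔ Force φ v p ∧ Force ψ v p := Iff.rfl
@[simp] lemma force_all : Force (.all i φ) v p ↔ ∀ x, Force φ (Function.update v i x) p := Iff.rfl

lemma force_mono (h : Force φ v p) (hq : q ≤ p) : Force φ v q := by
  induction φ generalizing v with
  | mem i j => exact fmem_mono h hq
  | eq i j => exact feq_mono h hq
  | neg φ _ => exact fun r hr => h r (hr.trans hq)
  | and φ ψ ih1 ih2 => exact ⟨ih1 h.1, ih2 h.2⟩
  | all i φ ih => exact fun x => ih (h x)

lemma force_dense (h : ∀ q ≤ p, ∃ r ≤ q, Force φ v r) : Force φ v p := by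
  induction φ generalizing v p with
  | mem i j => exact fmem_dense h
  | eq i j => exact feq_dense h
  | neg φ _ =>
    intro q hq hf
    obtain ⟨r, hr, hn⟩ := h q hq
    exact hn r le_rfl (force_mono hf hr)
  | and φ ψ ih1 ih2 =>
    exact ⟨ih1 fun q hq => let ⟨r, hr, hh⟩ := h q hq; ⟨r, hr, hh.1⟩,
      ih2 fun q hq => let ⟨r, hr, hh⟩ := h q hq; ⟨r, hr, hh.2⟩⟩
  | all i φ ih =>
    exact fun x => ih fun q hq => let ⟨r, hr, hh⟩ := h q hq; ⟨r, hr, hh x⟩

lemma force_imp : Force (.imp φ ψ) v p ↔ ∀ q ≤ p, Force φ v q → Force ψ v q := by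
  simp only [Fml.imp, force_neg, force_and]
  constructor
  · intro h q hq hφ
    apply force_dense
    intro r hr
    by_contra hcon
    push Not at hcon
    exact h r (hr.trans hq) ⟨force_mono hφ hr, hcon⟩
  · rintro h q hq ⟨h1, h2⟩
    exact h2 q le_rfl (h q hq h1)

lemma force_or : Force (.or φ ψ) v p ↔ ∀ q ≤ p, ∃ r ≤ q, Force φ v r ∨ Force ψ v r := by
  simp only [Fml.or, force_neg, force_and]
  constructor
  · intro h q hq
    by_contra hcon
    push Not at hcon
    exact h q hq ⟨fun r hr => (hcon r hr).1, fun r hr => (hcon r hr).2⟩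
  · rintro h q hq ⟨h1, h2⟩
    obtain ⟨r, hr, hh | hh⟩ := h q hq
    · exact h1 r hr hh
    · exact h2 r hr hh

lemma force_iff : Force (.iff φ ψ) v p ↔ ∀ q ≤ p, (Force φ v q ↔ Force ψ v q) := by
  simp only [Fml.iff, force_and, force_imp]
  constructor
  · rintro ⟨h1, h2⟩ q hq
    exact ⟨h1 q hq, h2 q hq⟩
  · intro h
    exact ⟨fun q hq => (h q hq).1, fun q hq => (h q hq).2⟩

lemma force_ex : Force (.ex i φ) v p ↔
    ∀ q ≤ p, ∃ r ≤ q, ∃ x, Force φ (Function.update v i x) r := by
  simp only [Fml.ex, force_neg, force_all]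
  constructor
  · intro h q hq
    have := h q hq
    push Not at this
    obtain ⟨x, r, hr, hf⟩ := this
    exact ⟨r, hr, x, hf⟩
  · intro h q hq hcon
    obtain ⟨r, hr, x, hf⟩ := h q hq
    exact hcon x r hr hf

/-- substitution of forced-equal names -/
lemma force_congr (h : ∀ i, feq (v i) (w i) p) (hf : Force φ v p) : Force φ w p := by
  induction φ generalizing v w p with
  | mem i j => exact fmem_congr_right (h j) (fmem_congr_left (h i) hf)
  | eq i j => exact feq_trans (feq_symm (h i)) (feq_trans hf (h j))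
  | neg φ ih =>
    intro q hq hcon
    exact hf q hq (ih (fun i => feq_symm (feq_mono (h i) hq)) hcon)
  | and φ ψ ih1 ih2 => exact ⟨ih1 h hf.1, ih2 h hf.2⟩
  | all i φ ih =>
    intro x
    refine ih (v := Function.update v i x) (fun j => ?_) (hf x)
    by_cases hji : j = i
    · subst hji; simpa using feq_refl x p
    · rw [Function.update_of_ne hji, Function.update_of_ne hji]; exact h j

lemma force_congr_update {x y : Name P} (h : feq x y p) (hf : Force φ (Function.update v i x) p) :
    Force φ (Function.update v i y) p := by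
  refine force_congr (fun j => ?_) hf
  by_cases hji : j = i
  · subst hji; simpa using h
  · rw [Function.update_of_ne hji, Function.update_of_ne hji]; exact feq_refl _ _

lemma force_agree {φ : Fml} {v w : ℕ → Name P} {p : P} (h : ∀ i < φ.bd, v i = w i) :
    Force φ v p ↔ Force φ w p := by
  induction φ generalizing v w p with
  | mem i j =>
    rw [force_mem, force_mem, h i (by simp only [Fml.bd]; omega), h j (by simp only [Fml.bd]; omega)]
  | eq i j =>
    rw [force_eq, force_eq, h i (by simp only [Fml.bd]; omega), h j (by simp only [Fml.bd]; omega)]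
  | neg φ ih =>
    rw [force_neg, force_neg]
    exact forall_congr' fun q => imp_congr_right fun _ => not_congr (ih h)
  | and φ ψ ih1 ih2 =>
    rw [force_and, force_and, ih1 (fun i hi => h i (lt_of_lt_of_le hi (le_max_left _ _))),
      ih2 (fun i hi => h i (lt_of_lt_of_le hi (le_max_right _ _)))]
  | all i φ ih =>
    rw [force_all, force_all]
    refine forall_congr' fun x => ih fun j hj => ?_
    by_cases hji : j = i
    · subst hji; simp
    · rw [Function.update_of_ne hji, Function.update_of_ne hji]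
      exact h j (lt_of_lt_of_le hj (le_max_right _ _))

end Force

end Pool.Agent.Forcing
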