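import Pool.Agent.Lib_Forcing.Mixing
import Mathlib.Data.Set.Countable
import Mathlib.Data.Countable.Basic
import Mathlib.Logic.Denumerable
import Mathlib.Order.Monotone.Basic

/-!
# Countable sets of names, generic sequences and the quotient model
-/

namespace Pool.Agent.Forcing

universe u
open Name

/-- Any countable family of finitary operations has a countable closed set. -/
lemma exists_countable_closed {α : Type*} (ops : ℕ → List α → α) :
    ∃ S : Set α, S.Countable ∧ ∀ k (l : List α), (∀ x ∈ l, x ∈ S) → ops k l ∈ S := by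
  let step : Set α → Set α := fun S => S ∪ ⋃ k, (fun l => ops k l) '' {l | ∀ x ∈ l, x ∈ S}
  let S : ℕ → Set α := fun n => Nat.rec ∅ (fun _ T => step T) n
  have hS0 : S 0 = ∅ := rfl
  have hSs : ∀ n, S (n+1) = step (S n) := fun n => rfl
  have hmono : ∀ n, S n ⊆ S (n+1) := fun n => by rw [hSs]; exact Set.subset_union_left
  have hmono' : Monotone S := monotone_nat_of_le_succ hmono
  have hlist : ∀ T : Set α, T.Countable → {l : List α | ∀ x ∈ l, x ∈ T}.Countable := by
    intro T hT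
    have := hT.to_subtype
    have h2 : {l : List α | ∀ x ∈ l, x ∈ T} ⊆ Set.range (fun l : List T => l.map Subtype.val) := by
      intro l hl
      refine ⟨l.attach.map (fun x => ⟨x.1, hl x.1 x.2⟩), ?_⟩
      simp
    exact (Set.countable_range _).mono h2
  have hcount : ∀ n, (S n).Countable := by
    intro n
    induction n with
    | zero => rw [hS0]; exact Set.countable_empty
    | succ n ih =>
      rw [hSs]
      exact ih.union (Set.countable_iUnion fun k => (hlist _ ih).image _)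
  refine ⟨⋃ n, S n, Set.countable_iUnion hcount, ?_⟩
  intro k l hl
  have : ∃ n, ∀ x ∈ l, x ∈ S n := by
    induction l with
    | nil => exact ⟨0, by simp⟩
    | cons a l ih =>
      obtain ⟨n, hn⟩ := ih (fun x hx => hl x (List.mem_cons_of_mem a hx))
      obtain ⟨m, hm⟩ := Set.mem_iUnion.1 (hl a List.mem_cons_self)
      refine ⟨max n m, fun x hx => ?_⟩
      rcases List.mem_cons.1 hx with rfl | hx
      · exact hmono' (le_max_right n m) hm
      · exact hmono' (le_max_left n m) (hn x hx)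
  obtain ⟨n, hn⟩ := this
  refine Set.mem_iUnion.2 ⟨n+1, ?_⟩
  rw [hSs]
  right
  exact Set.mem_iUnion.2 ⟨k, l, hn, rfl⟩

variable {P : Type u} [Preorder P]

/-- Rasiowa–Sikorski. -/
lemma exists_generic_seq {ι : Type*} [Countable ι] [Nonempty ι] (D : ι → Set P)
    (hD : ∀ i p, ∃ q ≤ p, q ∈ D i) (p0 : P) :
    ∃ G : ℕ → P, G 0 = p0 ∧ Antitone G ∧ ∀ i, ∃ n, G n ∈ D i := by
  obtain ⟨e, he⟩ := exists_surjective_nat ι
  choose f hf1 hf2 using hD
  let G : ℕ → P := fun n => Nat.rec p0 (fun k p => f (e k) p) n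
  have hG : ∀ n, G (n+1) = f (e n) (G n) := fun n => rfl
  refine ⟨G, rfl, antitone_nat_of_succ_le fun n => by rw [hG]; exact hf1 _ _, fun i => ?_⟩
  obtain ⟨k, rfl⟩ := he i
  exact ⟨k+1, by rw [hG]; exact hf2 _ _⟩

/-- assignment given by a list, with default value -/
def ev {α : Type*} (d : α) (l : List α) : ℕ → α := fun k => l.getD k d

/-- The data of a countable family of names and a descending sequence of conditions which is
generic enough for Łoś' theorem. -/
structure Gen (P : Type u) [Preorder P] where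
  N : Set (Name P)
  G : ℕ → P
  countable : N.Countable
  anti : Antitone G
  dflt : Name P
  dflt_mem : dflt ∈ N
  wit : ∀ (φ : Fml) (i : ℕ) (v : ℕ → Name P), (∀ k, v k ∈ N) →
    ∃ x ∈ N, ∀ p, Force (.ex i φ) v p → Force φ (Function.update v i x) p
  dec : ∀ (φ : Fml) (v : ℕ → Name P), (∀ k, v k ∈ N) →
    ∃ n, Force φ v (G n) ∨ ∀ q ≤ G n, ¬ Force φ v q

namespace Gen

variable (𝔊 : Gen P)

/-- truth along the generic sequence -/
def Holds (Φ : P → Prop) : Prop := ∃ n, Φ (𝔊.G n)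

lemma Holds.mono {Φ : P → Prop} (hmono : ∀ p q, q ≤ p → Φ p → Φ q) {n m : ℕ} (h : n ≤ m)
    (hn : Φ (𝔊.G n)) : Φ (𝔊.G m) := hmono _ _ (𝔊.anti h) hn

/-- equality of names in the model -/
def setoid : Setoid 𝔊.N where
  r x y := ∃ n, feq x.1 y.1 (𝔊.G n)
  iseqv := by
    refine ⟨fun x => ⟨0, feq_refl _ _⟩, fun ⟨n, h⟩ => ⟨n, feq_symm h⟩, ?_⟩
    rintro x y z ⟨n, h1⟩ ⟨m, h2⟩
    exact ⟨max n m, feq_trans (feq_mono h1 (𝔊.anti (le_max_left _ _)))
      (feq_mono h2 (𝔊.anti (le_max_right _ _)))⟩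

/-- the countable model attached to a generic sequence -/
def M : Type (u+1) := Quotient 𝔊.setoid

/-- the class of a name -/
def cls (x : 𝔊.N) : 𝔊.M := Quotient.mk 𝔊.setoid x

lemma cls_eq {x y : 𝔊.N} : 𝔊.cls x = 𝔊.cls y ↔ ∃ n, feq x.1 y.1 (𝔊.G n) := by
  exact Quotient.eq (r := 𝔊.setoid)

lemma exists_rep (a : 𝔊.M) : ∃ x : 𝔊.N, 𝔊.cls x = a := Quotient.exists_rep a

/-- membership in the model -/
def E : 𝔊.M → 𝔊.M → Prop :=
  Quotient.lift₂ (fun x y => ∃ n, fmem x.1 y.1 (𝔊.G n)) (by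
    rintro x y x' y' ⟨n, h1⟩ ⟨m, h2⟩
    apply propext
    constructor
    · rintro ⟨k, hk⟩
      refine ⟨max k (max n m), ?_⟩
      exact fmem_congr_right (feq_mono h2 (𝔊.anti (by omega)))
        (fmem_congr_left (feq_mono h1 (𝔊.anti (by omega))) (fmem_mono hk (𝔊.anti (by omega))))
    · rintro ⟨k, hk⟩
      refine ⟨max k (max n m), ?_⟩
      exact fmem_congr_right (feq_symm (feq_mono h2 (𝔊.anti (by omega))))
        (fmem_congr_left (feq_symm (feq_mono h1 (𝔊.anti (by omega))))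
          (fmem_mono hk (𝔊.anti (by omega)))))

lemma E_cls {x y : 𝔊.N} : 𝔊.E (𝔊.cls x) (𝔊.cls y) ↔ ∃ n, fmem x.1 y.1 (𝔊.G n) := Iff.rfl

lemma cls_update (v : ℕ → 𝔊.N) (i : ℕ) (x : 𝔊.N) :
    (fun k => 𝔊.cls (Function.update v i x k)) =
      Function.update (fun k => 𝔊.cls (v k)) i (𝔊.cls x) := by
  funext k
  by_cases h : k = i
  · subst h; simp
  · simp [Function.update_of_ne h]

lemma val_update (v : ℕ → 𝔊.N) (i : ℕ) (x : 𝔊.N) :
    (fun k => (Function.update v i x k).1) =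
      Function.update (fun k => (v k).1) i x.1 := by
  funext k
  by_cases h : k = i
  · subst h; simp
  · simp [Function.update_of_ne h]

/-- Łoś' theorem / truth lemma. -/
theorem los (φ : Fml) (v : ℕ → 𝔊.N) :
    Sat 𝔊.E φ (fun k => 𝔊.cls (v k)) ↔ ∃ n, Force φ (fun k => (v k).1) (𝔊.G n) := by
  induction φ generalizing v with
  | mem i j => exact Iff.rfl
  | eq i j => exact 𝔊.cls_eq
  | neg φ ih =>
    rw [sat_neg, ih]
    constructor
    · intro h
      obtain ⟨n, h1 | h1⟩ := 𝔊.dec φ (fun k => (v k).1) (fun k => (v k).2)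
      · exact absurd ⟨n, h1⟩ h
      · exact ⟨n, h1⟩
    · rintro ⟨n, h1⟩ ⟨m, h2⟩
      exact h1 _ (𝔊.anti (le_max_left n m)) (force_mono h2 (𝔊.anti (le_max_right n m)))
  | and φ ψ ih1 ih2 =>
    rw [sat_and, ih1, ih2]
    constructor
    · rintro ⟨⟨n, h1⟩, ⟨m, h2⟩⟩
      exact ⟨max n m, force_mono h1 (𝔊.anti (le_max_left n m)),
        force_mono h2 (𝔊.anti (le_max_right n m))⟩
    · rintro ⟨n, h1, h2⟩
      exact ⟨⟨n, h1⟩, ⟨n, h2⟩⟩
  | all i φ ih =>
    rw [sat_all]
    constructor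
    · intro h
      obtain ⟨n, h1 | h1⟩ := 𝔊.dec (.all i φ) (fun k => (v k).1) (fun k => (v k).2)
      · exact ⟨n, h1⟩
      · exfalso
        have hex : Force (.ex i (.neg φ)) (fun k => (v k).1) (𝔊.G n) := by
          rw [force_ex]
          intro q hq
          have h2 := h1 q hq
          rw [force_all] at h2
          push Not at h2
          obtain ⟨x, hx⟩ := h2
          have h3 : ¬ ∀ r ≤ q, ∃ s ≤ r, Force φ (Function.update (fun k => (v k).1) i x) s :=
            fun hcon => hx (force_dense hcon)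
          push Not at h3
          obtain ⟨r, hr, h4⟩ := h3
          exact ⟨r, hr, x, h4⟩
        obtain ⟨x, hxN, hx⟩ := 𝔊.wit (.neg φ) i (fun k => (v k).1) (fun k => (v k).2)
        have h5 := hx _ hex
        have h6 := h (𝔊.cls ⟨x, hxN⟩)
        rw [← cls_update, ih, val_update] at h6
        obtain ⟨m, hm⟩ := h6
        exact h5 _ (𝔊.anti (le_max_left n m)) (force_mono hm (𝔊.anti (le_max_right n m)))
    · rintro ⟨n, h1⟩ a
      obtain ⟨x, rfl⟩ := 𝔊.exists_rep a
      rw [← cls_update, ih, val_update]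
      exact ⟨n, h1 x.1⟩

/-- every assignment in the model comes from names -/
lemma exists_rep_fun (v : ℕ → 𝔊.M) : ∃ w : ℕ → 𝔊.N, (fun k => 𝔊.cls (w k)) = v := by
  choose w hw using fun k => 𝔊.exists_rep (v k)
  exact ⟨w, funext hw⟩

/-- formulas forced by every condition hold in the model -/
lemma sat_of_forced {φ : Fml} (h : ∀ (v : ℕ → Name P) (p : P), Force φ v p) (v : ℕ → 𝔊.M) :
    Sat 𝔊.E φ v := by
  obtain ⟨w, rfl⟩ := 𝔊.exists_rep_fun v
  rw [los]
  exact ⟨0, h _ _⟩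

end Gen

/-- Existence of generic data, closed under given operations and meeting given dense sets. -/
theorem exists_gen (ops : ℕ → List (Name P) → Name P) (D : ℕ → List (Name P) → Set P)
    (hD : ∀ k l p, ∃ q ≤ p, q ∈ D k l) (p0 : P) :
    ∃ 𝔊 : Gen P, 𝔊.G 0 = p0 ∧ (∀ k l, (∀ x ∈ l, x ∈ 𝔊.N) → ops k l ∈ 𝔊.N) ∧
      ∀ k l, (∀ x ∈ l, x ∈ 𝔊.N) → ∃ n, 𝔊.G n ∈ D k l := by
  classical
  -- default name
  let d : Name P := ops 0 []
  -- all operations, indexed by a countable type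
  let I := (Fml × ℕ) ⊕ ℕ
  have : Countable I := inferInstance
  have : Nonempty I := ⟨Sum.inr 0⟩
  obtain ⟨e, he⟩ := exists_surjective_nat I
  let w : Fml → ℕ → List (Name P) → Name P := fun φ i l => (exists_witness i φ (ev d l)).choose
  have hw : ∀ φ i l p, Force (.ex i φ) (ev d l) p → Force φ (Function.update (ev d l) i (w φ i l)) p :=
    fun φ i l => (exists_witness i φ (ev d l)).choose_spec
  let O : I → List (Name P) → Name P := fun t l => Sum.elim (fun a => w a.1 a.2 l) (fun k => ops k l) t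
  obtain ⟨N, hNc, hN⟩ := exists_countable_closed (fun k l => O (e k) l)
  have hO : ∀ t l, (∀ x ∈ l, x ∈ N) → O t l ∈ N := by
    intro t l hl
    obtain ⟨k, rfl⟩ := he t
    exact hN k l hl
  have hops : ∀ k l, (∀ x ∈ l, x ∈ N) → ops k l ∈ N := fun k l hl => hO (Sum.inr k) l hl
  have hwN : ∀ φ i l, (∀ x ∈ l, x ∈ N) → w φ i l ∈ N := fun φ i l hl => hO (Sum.inl (φ, i)) l hl
  have hdN : d ∈ N := hops 0 [] (by simp)
  -- lists over N
  have hNcount := hNc.to_subtype
  let T := (Fml ⊕ ℕ) × List N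
  have hTc : Countable T := inferInstance
  have hTn : Nonempty T := ⟨(Sum.inr 0, [])⟩
  let lv : List N → List (Name P) := fun l => l.map Subtype.val
  let DD : T → Set P := fun t => Sum.elim
    (fun φ => {q | Force φ (ev d (lv t.2)) q ∨ ∀ r ≤ q, ¬ Force φ (ev d (lv t.2)) r})
    (fun k => D k (lv t.2)) t.1
  have hDD : ∀ t p, ∃ q ≤ p, q ∈ DD t := by
    rintro ⟨φ | k, l⟩ p
    · by_cases h : ∃ q ≤ p, Force φ (ev d (lv l)) q
      · obtain ⟨q, hq, hf⟩ := h
        exact ⟨q, hq, Or.inl hf⟩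
      · push Not at h
        exact ⟨p, le_rfl, Or.inr h⟩
    · exact hD k (lv l) p
  obtain ⟨G, hG0, hGa, hG⟩ := exists_generic_seq DD hDD p0
  -- replacing an assignment by a list
  have hev : ∀ (v : ℕ → Name P) (b : ℕ) (k : ℕ), k < b →
      ev d ((List.range b).map v) k = v k := by
    intro v b k hk
    simp [ev, List.getD, hk]
  have hmemN : ∀ (v : ℕ → Name P) (b : ℕ), (∀ k, v k ∈ N) → ∀ x ∈ (List.range b).map v, x ∈ N := by
    intro v b hv x hx
    obtain ⟨k, _, rfl⟩ := List.mem_map.1 hx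
    exact hv k
  have hlift : ∀ l : List (Name P), (∀ x ∈ l, x ∈ N) → ∃ l' : List N, lv l' = l := by
    intro l hl
    induction l with
    | nil => exact ⟨[], rfl⟩
    | cons a l ih =>
      obtain ⟨l', h'⟩ := ih (fun x hx => hl x (List.mem_cons_of_mem a hx))
      refine ⟨⟨a, hl a List.mem_cons_self⟩ :: l', ?_⟩
      exact congrArg (fun t => a :: t) h'
  refine ⟨⟨N, G, hNc, hGa, d, hdN, ?_, ?_⟩, hG0, hops, ?_⟩
  · intro φ i v hv
    let b := max (i+1) φ.bd
    let l := (List.range b).map v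
    refine ⟨w φ i l, hwN φ i l (hmemN v b hv), ?_⟩
    intro p hp
    have hagree : ∀ k < (Fml.ex i φ).bd, v k = ev d l k := by
      intro k hk
      rw [hev v b k]
      simpa [Fml.ex, Fml.bd, b] using hk
    have h1 := hw φ i l p ((force_agree hagree).1 hp)
    refine (force_agree ?_).1 h1
    intro k hk
    by_cases hki : k = i
    · subst hki; simp
    · rw [Function.update_of_ne hki, Function.update_of_ne hki, hev v b k]
      exact lt_of_lt_of_le hk (le_max_right _ _)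
  · intro φ v hv
    let b := φ.bd
    let l := (List.range b).map v
    obtain ⟨l', hl'⟩ := hlift l (hmemN v b hv)
    obtain ⟨n, hn⟩ := hG (Sum.inl φ, l')
    have hagree : ∀ k < φ.bd, ev d l k = v k := fun k hk => hev v b k hk
    refine ⟨n, ?_⟩
    have hn' : Force φ (ev d (lv l')) (G n) ∨ ∀ r ≤ G n, ¬ Force φ (ev d (lv l')) r := hn
    rw [hl'] at hn'
    rcases hn' with h1 | h1
    · left; exact (force_agree hagree).1 h1
    · right
      intro q hq hf
      exact h1 q hq ((force_agree hagree).2 hf)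
  · intro k l hl
    obtain ⟨l', hl'⟩ := hlift l hl
    obtain ⟨n, hn⟩ := hG (Sum.inr k, l')
    refine ⟨n, ?_⟩
    have hn' : G n ∈ D k (lv l') := hn
    rwa [hl'] at hn'

end Pool.Agent.Forcing

namespace Pool.Agent.Forcing

universe u
open Name

variable {P : Type u} [Preorder P]

/-- Version of `exists_gen` with arbitrary countable index types. -/
theorem exists_gen' {ι κ : Type} [Countable ι] [Nonempty ι] [Countable κ] [Nonempty κ]
    (ops : ι → List (Name P) → Name P) (D : κ → List (Name P) → Set P)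
    (hD : ∀ k l p, ∃ q ≤ p, q ∈ D k l) (p0 : P) :
    ∃ 𝔊 : Gen P, 𝔊.G 0 = p0 ∧ (∀ k l, (∀ x ∈ l, x ∈ 𝔊.N) → ops k l ∈ 𝔊.N) ∧
      ∀ k l, (∀ x ∈ l, x ∈ 𝔊.N) → ∃ n, 𝔊.G n ∈ D k l := by
  obtain ⟨e, he⟩ := exists_surjective_nat ι
  obtain ⟨f, hf⟩ := exists_surjective_nat κ
  obtain ⟨𝔊, h0, h1, h2⟩ := exists_gen (fun k => ops (e k)) (fun k => D (f k))
    (fun k l p => hD (f k) l p) p0
  refine ⟨𝔊, h0, fun k l hl => ?_, fun k l hl => ?_⟩
  · obtain ⟨j, rfl⟩ := he k
    exact h1 j l hl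
  · obtain ⟨j, rfl⟩ := hf k
    exact h2 j l hl

/-- A name that realises a densely satisfiable predicate on a dense set of conditions. -/
theorem exists_name_dense (Ψ : Name P → P → Prop)
    (mono : ∀ x p q, q ≤ p → Ψ x p → Ψ x q)
    (congr : ∀ x y p, feq x y p → Ψ x p → Ψ y p)
    (h : ∀ p, ∃ q ≤ p, ∃ c, Ψ c q) : ∃ c, ∀ p, ∃ q ≤ p, Ψ c q := by
  obtain ⟨c, hc⟩ := max_principle (fun x p => ∀ q ≤ p, ∃ r ≤ q, Ψ x r)
    (fun x p q hq hx r hr => hx r (hr.trans hq))
    (fun x p hx q hq => by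
      obtain ⟨r, hr, h2⟩ := hx q hq
      obtain ⟨s, hs, h3⟩ := h2 r le_rfl
      exact ⟨s, hs.trans hr, h3⟩)
    (fun x y p hxy hx q hq => by
      obtain ⟨r, hr, h2⟩ := hx q hq
      exact ⟨r, hr, congr x y r (feq_mono hxy (hr.trans hq)) h2⟩)
  refine ⟨c, fun p => ?_⟩
  exact hc p (fun q _ => by
    obtain ⟨r, hr, y, hy⟩ := h q
    exact ⟨r, hr, y, fun s hs => ⟨s, le_rfl, mono _ _ _ hs hy⟩⟩) p le_rfl

end Pool.Agent.Forcing
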