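import Pool.Agent.Lib_Forcing.Formula
import Mathlib.Order.Zorn
import Mathlib.Order.Preorder.Chain

/-!
# Mixing of names and the maximum principle
-/

namespace Pool.Agent.Forcing

universe u
open Name

variable {P : Type u} [Preorder P]

lemma exists_max_antichain (D : Set P) : ∃ A : Set P, A ⊆ D ∧
    (∀ a ∈ A, ∀ b ∈ A, ∀ r, r ≤ a → r ≤ b → a = b) ∧
    ∀ d ∈ D, (∀ q ≤ d, q ∈ D) → ∃ a ∈ A, ∃ r, r ≤ a ∧ r ≤ d := by
  obtain ⟨A, hA⟩ := zorn_subset
    {A : Set P | A ⊆ D ∧ ∀ a ∈ A, ∀ b ∈ A, ∀ r, r ≤ a → r ≤ b → a = b} (by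
      intro c hc hchain
      refine ⟨⋃₀ c, ⟨?_, ?_⟩, fun s hs => Set.subset_sUnion_of_mem hs⟩
      · exact Set.sUnion_subset fun s hs => (hc hs).1
      · rintro a ⟨s, hs, has⟩ b ⟨t, ht, hbt⟩ r hra hrb
        rcases hchain.total hs ht with h | h
        · exact (hc ht).2 a (h has) b hbt r hra hrb
        · exact (hc hs).2 a has b (h hbt) r hra hrb)
  refine ⟨A, hA.prop.1, hA.prop.2, ?_⟩
  intro d hd _
  by_contra hcon
  push Not at hcon
  have hins : insert d A ∈ {A : Set P | A ⊆ D ∧ ∀ a ∈ A, ∀ b ∈ A, ∀ r, r ≤ a → r ≤ b → a = b} := by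
    refine ⟨Set.insert_subset hd hA.prop.1, ?_⟩
    rintro a (rfl | ha) b (rfl | hb) r hra hrb
    · rfl
    · exact absurd hra (hcon b hb r hrb)
    · exact absurd hrb (hcon a ha r hra)
    · exact hA.prop.2 a ha b hb r hra hrb
  have : d ∈ A := hA.le_of_ge hins (Set.subset_insert d A) (Set.mem_insert d A)
  exact hcon d this d le_rfl le_rfl

/-- Mixing: given an antichain `A` and names `f a`, there is a name forced by each `a ∈ A` to be
equal to `f a`. -/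
lemma exists_mix (A : Set P) (hA : ∀ a ∈ A, ∀ b ∈ A, ∀ r, r ≤ a → r ≤ b → a = b)
    (f : A → Name P) : ∃ x : Name P, ∀ a : A, feq x (f a) a.1 := by
  refine ⟨Name.mk (Σ a : A, Σ i : (f a).idx, {r : P // r ≤ a.1 ∧ r ≤ (f a).cd i})
    (fun t => (f t.1).nm t.2.1) (fun t => t.2.2.1), fun a => ?_⟩
  rw [feq_def]
  constructor
  · rintro ⟨b, i, r, hr1, hr2⟩ q hq hc
    have hab : b = a := Subtype.ext (hA _ b.2 _ a.2 q (le_trans hc hr1) hq)
    subst hab
    exact ⟨q, le_rfl, i, le_trans hc hr2, feq_refl _ _⟩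
  · intro i q hq hc
    exact ⟨q, le_rfl, ⟨a, i, q, hq, hc⟩, le_rfl, feq_refl _ _⟩

/-- The maximum principle. -/
theorem max_principle (Φ : Name P → P → Prop)
    (mono : ∀ x p q, q ≤ p → Φ x p → Φ x q)
    (dense : ∀ x p, (∀ q ≤ p, ∃ r ≤ q, Φ x r) → Φ x p)
    (congr : ∀ x y p, feq x y p → Φ x p → Φ y p) :
    ∃ x, ∀ p, (∀ q ≤ p, ∃ r ≤ q, ∃ y, Φ y r) → Φ x p := by
  classical
  let D : Set P := {r | ∃ y, Φ y r}
  obtain ⟨A, hAD, hA, hmax⟩ := exists_max_antichain D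
  have hch : ∀ a : A, ∃ y, Φ y a.1 := fun a => hAD a.2
  choose f hf using hch
  obtain ⟨x, hx⟩ := exists_mix A hA f
  refine ⟨x, fun p hp => dense x p fun q hq => ?_⟩
  obtain ⟨r, hr, y, hy⟩ := hp q hq
  obtain ⟨a, ha, s, hsa, hsr⟩ := hmax r ⟨y, hy⟩ (fun t ht => ⟨y, mono y r t ht hy⟩)
  refine ⟨s, hsr.trans hr, ?_⟩
  exact congr _ _ _ (feq_symm (feq_mono (hx ⟨a, ha⟩) hsa)) (mono _ _ _ hsa (hf ⟨a, ha⟩))

/-- existence of witnesses for forced existential formulas -/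
theorem exists_witness (i : ℕ) (φ : Fml) (v : ℕ → Name P) :
    ∃ x, ∀ p, Force (.ex i φ) v p → Force φ (Function.update v i x) p := by
  obtain ⟨x, hx⟩ := max_principle (fun x p => Force φ (Function.update v i x) p)
    (fun x p q hq h => force_mono h hq) (fun x p h => force_dense h)
    (fun x y p h hf => force_congr_update h hf)
  exact ⟨x, fun p hp => hx p (force_ex.1 hp)⟩

end Pool.Agent.Forcing
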