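import Mathlib.Order.Basic
import Mathlib.Order.BoundedOrder.Basic
import Mathlib.Logic.Basic
import Mathlib.Tactic.Common

/-!
# Forcing names over a poset, forced equality and forced membership
-/

namespace Pool.Agent.Forcing

universe u

/-- `P`-names: a name is a family of pairs (name, condition), indexed by a small type. -/
inductive Name (P : Type u) : Type (u+1)
  | mk (ι : Type u) (nm : ι → Name P) (c : ι → P) : Name P

namespace Name

variable {P : Type u}

/-- index type of a name -/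
def idx : Name P → Type u
  | mk ι _ _ => ι

/-- the names listed by a name -/
def nm : (x : Name P) → x.idx → Name P
  | mk _ nm _ => nm

/-- the conditions listed by a name -/
def cd : (x : Name P) → x.idx → P
  | mk _ _ c => c

@[simp] lemma idx_mk (ι : Type u) (A : ι → Name P) (c : ι → P) : (mk ι A c).idx = ι := rfl
@[simp] lemma nm_mk (ι : Type u) (A : ι → Name P) (c : ι → P) (i : ι) : (mk ι A c).nm i = A i := rfl
@[simp] lemma cd_mk (ι : Type u) (A : ι → Name P) (c : ι → P) (i : ι) : (mk ι A c).cd i = c i := rfl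

variable [Preorder P]

/-- `feq x y p`: the condition `p` forces `x = y`. -/
def feq : Name P → Name P → P → Prop
  | mk ι A c, mk κ B d => fun p =>
    (∀ i, ∀ q ≤ p, q ≤ c i → ∃ r ≤ q, ∃ j, r ≤ d j ∧ feq (A i) (B j) r) ∧
    (∀ j, ∀ q ≤ p, q ≤ d j → ∃ r ≤ q, ∃ i, r ≤ c i ∧ feq (A i) (B j) r)

lemma feq_def (x y : Name P) (p : P) : feq x y p ↔
    (∀ i, ∀ q ≤ p, q ≤ x.cd i → ∃ r ≤ q, ∃ j, r ≤ y.cd j ∧ feq (x.nm i) (y.nm j) r) ∧
    (∀ j, ∀ q ≤ p, q ≤ y.cd j → ∃ r ≤ q, ∃ i, r ≤ x.cd i ∧ feq (x.nm i) (y.nm j) r) := by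
  cases x; cases y; rfl

/-- `fmem x y p`: the condition `p` forces `x ∈ y`. -/
def fmem (x y : Name P) (p : P) : Prop :=
  ∀ q ≤ p, ∃ r ≤ q, ∃ j, r ≤ y.cd j ∧ feq x (y.nm j) r

lemma feq_mono {x y : Name P} {p q : P} (h : feq x y p) (hq : q ≤ p) : feq x y q := by
  rw [feq_def] at h ⊢
  exact ⟨fun i r hr hc => h.1 i r (hr.trans hq) hc, fun j r hr hc => h.2 j r (hr.trans hq) hc⟩

lemma fmem_mono {x y : Name P} {p q : P} (h : fmem x y p) (hq : q ≤ p) : fmem x y q :=
  fun r hr => h r (hr.trans hq)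

lemma feq_dense {x y : Name P} {p : P} (h : ∀ q ≤ p, ∃ r ≤ q, feq x y r) : feq x y p := by
  rw [feq_def]
  constructor
  · intro i q hq hc
    obtain ⟨r, hr, hxy⟩ := h q hq
    rw [feq_def] at hxy
    obtain ⟨s, hs, j, h1, h2⟩ := hxy.1 i r le_rfl (hr.trans hc)
    exact ⟨s, hs.trans hr, j, h1, h2⟩
  · intro j q hq hc
    obtain ⟨r, hr, hxy⟩ := h q hq
    rw [feq_def] at hxy
    obtain ⟨s, hs, i, h1, h2⟩ := hxy.2 j r le_rfl (hr.trans hc)
    exact ⟨s, hs.trans hr, i, h1, h2⟩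

lemma fmem_dense {x y : Name P} {p : P} (h : ∀ q ≤ p, ∃ r ≤ q, fmem x y r) : fmem x y p := by
  intro q hq
  obtain ⟨r, hr, hm⟩ := h q hq
  obtain ⟨s, hs, j, h1, h2⟩ := hm r le_rfl
  exact ⟨s, hs.trans hr, j, h1, h2⟩

lemma feq_refl (x : Name P) (p : P) : feq x x p := by
  induction x generalizing p with
  | mk ι A c ih =>
    rw [feq_def]
    exact ⟨fun i q _ hc => ⟨q, le_rfl, i, hc, ih i q⟩, fun i q _ hc => ⟨q, le_rfl, i, hc, ih i q⟩⟩

lemma feq_symm {x y : Name P} {p : P} (h : feq x y p) : feq y x p := by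
  induction x generalizing y p with
  | mk ι A c ih =>
    rw [feq_def] at h ⊢
    constructor
    · intro i q hq hc
      obtain ⟨r, hr, j, h1, h2⟩ := h.2 i q hq hc
      exact ⟨r, hr, j, h1, ih j h2⟩
    · intro j q hq hc
      obtain ⟨r, hr, i, h1, h2⟩ := h.1 j q hq hc
      exact ⟨r, hr, i, h1, ih j h2⟩

lemma feq_trans {x y z : Name P} {p : P} (h1 : feq x y p) (h2 : feq y z p) : feq x z p := by
  induction x generalizing y z p with
  | mk ι A c ih =>
    rw [feq_def] at h1 h2 ⊢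
    constructor
    · intro i q hq hc
      obtain ⟨r, hr, j, h3, h4⟩ := h1.1 i q hq hc
      obtain ⟨s, hs, k, h5, h6⟩ := h2.1 j r (hr.trans hq) h3
      exact ⟨s, hs.trans hr, k, h5, ih i (feq_mono h4 hs) h6⟩
    · intro k q hq hc
      obtain ⟨r, hr, j, h3, h4⟩ := h2.2 k q hq hc
      obtain ⟨s, hs, i, h5, h6⟩ := h1.2 j r (hr.trans hq) h3
      exact ⟨s, hs.trans hr, i, h5, ih i h6 (feq_mono h4 hs)⟩

lemma fmem_congr_left {x x' y : Name P} {p : P} (h : feq x x' p) (hm : fmem x y p) :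
    fmem x' y p := by
  intro q hq
  obtain ⟨r, hr, j, h1, h2⟩ := hm q hq
  exact ⟨r, hr, j, h1, feq_trans (feq_symm (feq_mono h (hr.trans hq))) h2⟩

lemma fmem_congr_right {x y y' : Name P} {p : P} (h : feq y y' p) (hm : fmem x y p) :
    fmem x y' p := by
  intro q hq
  obtain ⟨r, hr, j, h1, h2⟩ := hm q hq
  rw [feq_def] at h
  obtain ⟨s, hs, k, h3, h4⟩ := h.1 j r (hr.trans hq) h1
  exact ⟨s, hs.trans hr, k, h3, feq_trans (feq_mono h2 hs) h4⟩

/-- listed names are forced to be members by their condition -/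
lemma fmem_nm (x : Name P) (i : x.idx) {p : P} (hp : p ≤ x.cd i) : fmem (x.nm i) x p :=
  fun q hq => ⟨q, le_rfl, i, hq.trans hp, feq_refl _ _⟩

/-- forced extensionality -/
lemma feq_of_forall {x y : Name P} {p : P}
    (h1 : ∀ z, ∀ q ≤ p, fmem z x q → fmem z y q) (h2 : ∀ z, ∀ q ≤ p, fmem z y q → fmem z x q) :
    feq x y p := by
  rw [feq_def]
  constructor
  · intro i q hq hc
    exact h1 (x.nm i) q hq (fmem_nm x i hc) q le_rfl
  · intro j q hq hc
    obtain ⟨r, hr, i, h3, h4⟩ := h2 (y.nm j) q hq (fmem_nm y j hc) q le_rfl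
    exact ⟨r, hr, i, h3, feq_symm h4⟩

end Name

end Pool.Agent.Forcing
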