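import Pool.Agent.Lib_Forcing.Generic
import Pool.Agent.Lib_Forcing.Axioms

/-!
# The quotient model satisfies ZFC
-/

namespace Pool.Agent.Forcing

universe u v
open Name

section forced
variable {P : Type u} [Preorder P]

def extF : Fml := .all 0 (.all 1 (.imp (.all 2 (.iff (.mem 2 0) (.mem 2 1))) (.eq 0 1)))

lemma force_extF (v : ℕ → Name P) (p : P) : Force extF v p := by
  simp [extF, force_imp, force_iff]
  intro x y q _ h
  exact feq_of_forall (fun z r hr => (h z r hr).1) (fun z r hr => (h z r hr).2)

def foundF : Fml := .all 0 (.imp (.ex 1 (.mem 1 0))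
  (.ex 1 (.and (.mem 1 0) (.all 2 (.imp (.mem 2 0) (.neg (.mem 2 1)))))))

lemma force_foundF (v : ℕ → Name P) (p : P) : Force foundF v p := by
  simp [foundF, force_imp, force_ex]
  intro x q _ h
  exact foundation_names x q h

def unionF : Fml := .all 0 (.ex 1 (.all 2 (.iff (.mem 2 1) (.ex 3 (.and (.mem 3 0) (.mem 2 3))))))

lemma force_unionF (v : ℕ → Name P) (p : P) : Force unionF v p := by
  simp [unionF, force_iff, force_ex]
  intro x q _
  exact ⟨q, le_rfl, unionName x, fun z r _ => fmem_unionName⟩

/-- separation -/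
def sepF (φ : Fml) (i : ℕ) : Fml :=
  .all (max (i+1) φ.bd) (.ex (max (i+1) φ.bd + 1) (.all i (.iff (.mem i (max (i+1) φ.bd + 1))
    (.and (.mem i (max (i+1) φ.bd)) φ))))

lemma force_sepF (φ : Fml) (i : ℕ) (v : ℕ → Name P) (p : P) : Force (sepF φ i) v p := by
  rw [sepF]
  generalize hk : max (i+1) φ.bd = k
  have hik : i ≠ k := by omega
  have hik' : i ≠ k+1 := by omega
  rw [force_all]
  intro a
  rw [force_ex]
  intro q _
  refine ⟨q, le_rfl, sepName a (fun x p => Force φ (Function.update v i x) p), ?_⟩
  rw [force_all]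
  intro x
  rw [force_iff]
  intro r _
  rw [force_mem, force_and, force_mem]
  rw [Function.update_self, Function.update_of_ne hik'.symm, Function.update_self,
    Function.update_of_ne hik.symm, Function.update_of_ne (show k ≠ k+1 by omega),
    Function.update_self]
  rw [fmem_sepName (Φ := fun x p => Force φ (Function.update v i x) p)
    (fun x p q hq h => force_mono h hq) (fun x p h => force_dense h)
    (fun x y p h hf => force_congr_update h hf)]
  apply and_congr_right'
  apply force_agree
  intro j hj
  by_cases hji : j = i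
  · subst hji; simp
  · rw [Function.update_of_ne hji, Function.update_of_ne hji,
      Function.update_of_ne (by omega), Function.update_of_ne (by omega)]

/-- collection -/
def collF (φ : Fml) : Fml :=
  .all (max 2 φ.bd) (.ex (max 2 φ.bd + 1) (.all 0 (.imp (.mem 0 (max 2 φ.bd))
    (.imp (.ex 1 φ) (.ex 1 (.and (.mem 1 (max 2 φ.bd + 1)) φ))))))

section top
variable [OrderTop P]

lemma force_collF (φ : Fml) (v : ℕ → Name P) (p : P) : Force (collF φ) v p := by
  rw [collF]
  generalize hk : max 2 φ.bd = k
  rw [force_all]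
  intro a
  rw [force_ex]
  intro q _
  refine ⟨q, le_rfl, collName a
    (fun x y p => Force φ (Function.update (Function.update v 0 x) 1 y) p), ?_⟩
  rw [force_all]
  intro x
  rw [force_imp]
  intro r _ hxa
  rw [force_imp]
  intro s hs hex
  rw [force_mem, Function.update_self, Function.update_of_ne (by omega),
    Function.update_of_ne (by omega), Function.update_self] at hxa
  rw [force_ex] at hex ⊢
  have hag : ∀ (b y : Name P) (t : P),
      (Force φ (Function.update (Function.update (Function.update (Function.update v k a) (k+1) b)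
        0 x) 1 y) t ↔ Force φ (Function.update (Function.update v 0 x) 1 y) t) := by
    intro b y t
    apply force_agree
    intro j hj
    by_cases hj1 : j = 1
    · subst hj1; simp
    · rw [Function.update_of_ne hj1, Function.update_of_ne hj1]
      by_cases hj0 : j = 0
      · subst hj0; simp
      · rw [Function.update_of_ne hj0, Function.update_of_ne hj0,
          Function.update_of_ne (by omega), Function.update_of_ne (by omega)]
  have hex' : ∀ q ≤ s, ∃ r ≤ q, ∃ y, Force φ (Function.update (Function.update v 0 x) 1 y) r := by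
    intro q hq
    obtain ⟨r, hr, y, hy⟩ := hex q hq
    exact ⟨r, hr, y, (hag _ _ _).1 hy⟩
  intro q hq
  obtain ⟨r, hr, y, hy1, hy2⟩ := exists_mem_collName
    (Φ := fun x y p => Force φ (Function.update (Function.update v 0 x) 1 y) p)
    (fun x x' y p h hf => by
      refine force_congr (fun j => ?_) hf
      by_cases hj1 : j = 1
      · subst hj1; simpa using feq_refl _ _
      · rw [Function.update_of_ne hj1, Function.update_of_ne hj1]
        by_cases hj0 : j = 0
        · subst hj0; simpa using h
        · rw [Function.update_of_ne hj0, Function.update_of_ne hj0]; exact feq_refl _ _)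
    (fmem_mono hxa hs) hex' q hq
  refine ⟨r, hr, y, ?_⟩
  rw [force_and, force_mem]
  refine ⟨?_, (hag _ _ _).2 hy2⟩
  rw [Function.update_self, Function.update_of_ne (by omega), Function.update_of_ne (by omega),
    Function.update_self]
  exact hy1

def powF : Fml := .all 0 (.ex 1 (.all 2 (.iff (.mem 2 1) (.all 3 (.imp (.mem 3 2) (.mem 3 0))))))

lemma force_powF (v : ℕ → Name P) (p : P) : Force powF v p := by
  simp [powF, force_iff, force_imp, force_ex]
  intro x q _
  exact ⟨q, le_rfl, powName x, fun z r _ => fmem_powName⟩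

def pairF : Fml := .all 0 (.all 1 (.ex 2 (.all 3 (.iff (.mem 3 2) (.or (.eq 3 0) (.eq 3 1))))))

lemma force_pairF (v : ℕ → Name P) (p : P) : Force pairF v p := by
  simp [pairF, force_iff, force_or, force_ex]
  intro x y q _
  exact ⟨q, le_rfl, pairName x y, fun z r _ => fmem_pairName⟩

def infF : Fml := .ex 0 (.and (.ex 1 (.and (.mem 1 0) (.all 2 (.neg (.mem 2 1)))))
  (.all 1 (.imp (.mem 1 0) (.ex 2 (.and (.mem 2 0) (.all 3 (.iff (.mem 3 2)
    (.or (.mem 3 1) (.eq 3 1)))))))))

lemma force_infF (v : ℕ → Name P) (p : P) : Force infF v p := by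
  simp [infF, force_iff, force_imp, force_or, force_ex]
  intro q _
  refine ⟨q, le_rfl, omegaName, ?_, ?_⟩
  · intro r _
    refine ⟨r, le_rfl, emptyName, ?_, fun z s _ => not_fmem_emptyName⟩
    rw [fmem_omegaName]
    exact fun s _ => ⟨s, le_rfl, 0, feq_refl _ _⟩
  · intro x r _ hx s hs
    rw [fmem_omegaName] at hx
    obtain ⟨t, ht, n, hn⟩ := hx s hs
    refine ⟨t, ht, num (n+1), ?_, ?_⟩
    · rw [fmem_omegaName]
      exact fun s _ => ⟨s, le_rfl, n+1, feq_refl _ _⟩
    · intro z q1 hq1
      rw [num, fmem_succName]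
      have he : feq (num n) x q1 := feq_symm (feq_mono hn hq1)
      constructor
      · intro h q2 hq2
        obtain ⟨r2, hr2, h1 | h1⟩ := h q2 hq2
        · exact ⟨r2, hr2, Or.inl (fmem_congr_right (feq_mono he (hr2.trans hq2)) h1)⟩
        · exact ⟨r2, hr2, Or.inr (feq_trans h1 (feq_mono he (hr2.trans hq2)))⟩
      · intro h q2 hq2
        obtain ⟨r2, hr2, h1 | h1⟩ := h q2 hq2
        · exact ⟨r2, hr2, Or.inl (fmem_congr_right (feq_symm (feq_mono he (hr2.trans hq2))) h1)⟩
        · exact ⟨r2, hr2, Or.inr (feq_trans h1 (feq_symm (feq_mono he (hr2.trans hq2))))⟩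

end top

def choiceF : Fml := .all 0 (.imp (.and (.all 1 (.imp (.mem 1 0) (.ex 2 (.mem 2 1))))
    (.all 1 (.all 2 (.imp (.and (.mem 1 0) (.mem 2 0)) (.imp (.ex 3 (.and (.mem 3 1) (.mem 3 2)))
      (.eq 1 2))))))
  (.ex 4 (.all 1 (.imp (.mem 1 0) (.ex 2 (.and (.and (.mem 2 1) (.mem 2 4))
    (.all 3 (.imp (.and (.mem 3 1) (.mem 3 4)) (.eq 3 2)))))))))

lemma force_choiceF (v : ℕ → Name P) (p : P) : Force choiceF v p := by
  simp [choiceF, force_imp, force_ex]
  intro x q _ h1 h2 q1 hq1
  obtain ⟨c, hc⟩ := choice_names x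
  refine ⟨q1, le_rfl, c, ?_⟩
  have h3 := hc q1
    (fun r hr y y' hy hy' z hz hz' => h2 y y' r (hr.trans hq1) hy hy' r le_rfl
      (fun s hs => ⟨s, le_rfl, z, fmem_mono hz hs, fmem_mono hz' hs⟩))
    (fun r hr y hy => h1 y r (hr.trans hq1) hy)
  intro y r hr hy s hs
  obtain ⟨t, ht, z, hz1, hz2, hz3⟩ := h3 y r hr hy s hs
  exact ⟨t, ht, z, ⟨hz1, hz2⟩, fun w t' ht' hw1 hw2 => hz3 w t' ht' hw1 hw2⟩

end forced

section model
variable {P : Type u} [Preorder P] [OrderTop P]

theorem Gen.modelsZFC (𝔊 : Gen P) : ModelsZFC 𝔊.E := by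
  have v0 : ℕ → 𝔊.M := fun _ => 𝔊.cls ⟨𝔊.dflt, 𝔊.dflt_mem⟩
  have hsep : ∀ (φ : Fml) (i : ℕ) (v : ℕ → 𝔊.M) (a : 𝔊.M),
      ∃ b, ∀ x, 𝔊.E x b ↔ 𝔊.E x a ∧ Sat 𝔊.E φ (Function.update v i x) := by
    intro φ i v a
    have h := 𝔊.sat_of_forced (force_sepF φ i) v
    rw [sepF] at h
    generalize hk : max (i+1) φ.bd = k at h
    rw [sat_all] at h
    have h2 := h a
    rw [sat_ex] at h2
    obtain ⟨b, hb⟩ := h2
    refine ⟨b, fun x => ?_⟩
    rw [sat_all] at hb
    have h3 := hb x
    rw [sat_iff, sat_mem, sat_and, sat_mem] at h3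
    rw [Function.update_self, Function.update_of_ne (by omega), Function.update_self,
      Function.update_of_ne (by omega), Function.update_of_ne (by omega),
      Function.update_self] at h3
    rw [h3]
    apply and_congr_right'
    apply sat_congr
    intro j hj
    by_cases hji : j = i
    · subst hji; simp
    · rw [Function.update_of_ne hji, Function.update_of_ne hji,
        Function.update_of_ne (by omega), Function.update_of_ne (by omega)]
  refine ⟨?_, ?_, ?_, ?_, ?_, ?_, hsep, ?_, ?_⟩
  · have h := 𝔊.sat_of_forced force_extF v0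
    simpa [extF] using h
  · have h := 𝔊.sat_of_forced force_foundF v0
    simpa [foundF] using h
  · have h := 𝔊.sat_of_forced force_pairF v0
    simpa [pairF] using h
  · have h := 𝔊.sat_of_forced force_unionF v0
    simpa [unionF] using h
  · have h := 𝔊.sat_of_forced force_powF v0
    simpa [powF] using h
  · have h := 𝔊.sat_of_forced force_infF v0
    simpa [infF] using h
  · intro φ v a hfun
    have h := 𝔊.sat_of_forced (force_collF φ) v
    rw [collF] at h
    generalize hk : max 2 φ.bd = k at h
    rw [sat_all] at h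
    have h2 := h a
    rw [sat_ex] at h2
    obtain ⟨b, hb⟩ := h2
    rw [sat_all] at hb
    have hag : ∀ (x y : 𝔊.M),
        (Sat 𝔊.E φ (Function.update (Function.update (Function.update (Function.update v k a)
          (k+1) b) 0 x) 1 y) ↔ Sat 𝔊.E φ (Function.update (Function.update v 0 x) 1 y)) := by
      intro x y
      apply sat_congr
      intro j hj
      by_cases hj1 : j = 1
      · subst hj1; simp
      · rw [Function.update_of_ne hj1, Function.update_of_ne hj1]
        by_cases hj0 : j = 0
        · subst hj0; simp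
        · rw [Function.update_of_ne hj0, Function.update_of_ne hj0,
            Function.update_of_ne (by omega), Function.update_of_ne (by omega)]
    have hb' : ∀ x, 𝔊.E x a → ∀ y, Sat 𝔊.E φ (Function.update (Function.update v 0 x) 1 y) →
        𝔊.E y b := by
      intro x hx y hy
      have h3 := hb x
      rw [sat_imp, sat_mem, sat_imp, sat_ex, sat_ex] at h3
      rw [Function.update_self, Function.update_of_ne (by omega),
        Function.update_of_ne (by omega), Function.update_self] at h3
      obtain ⟨y', hy'⟩ := h3 hx ⟨y, (hag x y).2 hy⟩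
      rw [sat_and, sat_mem, hag] at hy'
      rw [Function.update_self, Function.update_of_ne (by omega),
        Function.update_of_ne (by omega), Function.update_self] at hy'
      obtain ⟨y0, _, hu⟩ := hfun x hx
      have e1 : y = y0 := hu y hy
      have e2 : y' = y0 := hu y' hy'.2
      rw [e1, ← e2]; exact hy'.1
    obtain ⟨b', hb'2⟩ := hsep (.ex 0 (.and (.mem 0 k) φ)) 1 (Function.update v k a) b
    refine ⟨b', fun y => ?_⟩
    rw [hb'2, sat_ex]
    have hiff : (∃ x, Sat 𝔊.E (.and (.mem 0 k) φ)
        (Function.update (Function.update (Function.update v k a) 1 y) 0 x)) ↔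
        ∃ x, 𝔊.E x a ∧ Sat 𝔊.E φ (Function.update (Function.update v 0 x) 1 y) := by
      apply exists_congr
      intro x
      rw [sat_and, sat_mem, Function.update_self, Function.update_of_ne (by omega),
        Function.update_of_ne (by omega), Function.update_self]
      apply and_congr_right'
      apply sat_congr
      intro j hj
      by_cases hj0 : j = 0
      · subst hj0; simp
      · rw [Function.update_of_ne hj0]
        by_cases hj1 : j = 1
        · subst hj1; simp
        · rw [Function.update_of_ne hj1, Function.update_of_ne hj1,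
            Function.update_of_ne (by omega), Function.update_of_ne hj0]
    rw [hiff]
    constructor
    · exact fun h => h.2
    · rintro ⟨x, hx, hy⟩
      exact ⟨hb' x hx y hy, x, hx, hy⟩
  · have h := 𝔊.sat_of_forced force_choiceF v0
    simp [choiceF] at h
    intro x h1 h2
    obtain ⟨c, hc⟩ := h x h1 (fun y y' hy hy' z hz hz' => h2 y y' hy hy' ⟨z, hz, hz'⟩)
    refine ⟨c, fun y hy => ?_⟩
    obtain ⟨z, ⟨hz1, hz2⟩, hz3⟩ := hc y hy
    exact ⟨z, ⟨hz1, hz2⟩, fun w hw => hz3 w hw.1 hw.2⟩

end model

end Pool.Agent.Forcing
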